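import Mathlib
import Pool.Agent.helper35.DR.LocF
import Pool.Agent.helper64.NQ.Defs

/-!
# Dade's invariant conjecture and Dade's groups `E[B]`: definitions

`Irr`, `IrrOn`, `Defect`, `omega`, `Induces`, `PosDefect`, `IsOp`, `nrm`, `IsRadical`, `Extension`, `stab`, `kC`,
`altSum` are those of `helper58/DC/Defs.lean`, `ClX`, `PrX`, `OrdX` those of `helper35/DR`, `TwoQ` that of
`helper64/NQ/Defs.lean`.
-/

set_option autoImplicit false

namespace Pool.Agent.BQ

open Pool.Agent.helper58.DC Pool.Agent.DI Pool.Agent.DR Pool.Agent.NQ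

theorem omega_funMap {G : Type} [Group G] (α : MulAut G) (ψ : G → ℂ) (g : G) :
    omega (funMap α ψ) g = omega ψ (α⁻¹ g) := by
  have h1 : funMap α ψ 1 = ψ 1 := by simp [funMap]
  unfold omega
  rw [h1]
  congr 1
  have h2 : ∀ x : G, x ∈ conjugatesOf g ↔ (α⁻¹ x) ∈ conjugatesOf (α⁻¹ g) := by
    intro x
    change IsConj g x ↔ IsConj (α⁻¹ g) (α⁻¹ x)
    rw [isConj_iff, isConj_iff]
    constructor
    · rintro ⟨c, rfl⟩
      exact ⟨α⁻¹ c, by simp only [map_mul, map_inv]⟩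
    · rintro ⟨c, hc⟩
      refine ⟨α c, ?_⟩
      have := congrArg α hc
      simpa only [map_mul, map_inv, MulAut.apply_inv_self] using this
  rw [← finsum_comp_equiv (α⁻¹ : MulAut G).toEquiv
    (f := fun x => ∑ᶠ (_ : x ∈ conjugatesOf (α⁻¹ g)), ψ x)]
  refine finsum_congr fun x => ?_
  change (∑ᶠ (_ : x ∈ conjugatesOf g), funMap α ψ x) =
    ∑ᶠ (_ : (α⁻¹ x) ∈ conjugatesOf (α⁻¹ g)), ψ (α⁻¹ x)
  classical
  by_cases hx : x ∈ conjugatesOf g
  · have hx' := (h2 x).1 hx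
    rw [finsum_eq_if, finsum_eq_if, if_pos hx, if_pos hx']
    rfl
  · have hx' := fun h => hx ((h2 x).2 h)
    rw [finsum_eq_if, finsum_eq_if, if_neg hx, if_neg hx']

section

variable {G E A : Type} [Group G] [Group E] [Group A] (X : Extension G E A)

/-- The subgroup `G⟨y⟩` of `E` generated by `G` and `y`. -/
def GY (y : E) : Subgroup E := (Subgroup.zpowers (X.proj y)).comap X.proj

/-- The inclusion of `G` in `G⟨y⟩`. -/
def incY (y : E) : G →* GY X y := X.inc.codRestrict _ fun g => by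
  change X.proj (X.inc g) ∈ Subgroup.zpowers (X.proj y)
  rw [(X.exact _).2 ⟨g, rfl⟩]
  exact Subgroup.one_mem _

theorem self_mem (y : E) : y ∈ GY X y := Subgroup.mem_zpowers (X.proj y)

/-- `B` is the block of `χ`: there is an irreducible character `φ` of `G⟨y⟩` lying over a character `χ'`
of `B` such that `|K| φ(y) / φ(1)`, `K` the conjugacy class of `y` in `G⟨y⟩`, is not in `M`. (Dade's group
`E[B]` is the union of the cosets `y G` of such elements `y`.) -/
def Inner (M : Ideal (integralClosure ℤ ℂ)) (χ : G → ℂ) (y : E) : Prop :=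
  ∃ φ ∈ Irr (GY X y), (∃ χ' ∈ Irr G, Induces M χ' χ ∧ ∑ᶠ g : G, φ (incY X y g) * χ' g⁻¹ ≠ 0) ∧
    ¬ ∃ a ∈ M, omega φ ⟨y, self_mem X y⟩ = ((a : integralClosure ℤ ℂ) : ℂ)

/-- `A[B] = E[B] / G`, the subgroup of `A` generated by the images of the elements `y` of `E` with
`Inner X M χ y`. -/
def AI (M : Ideal (integralClosure ℤ ℂ)) (χ : G → ℂ) : Subgroup A :=
  Subgroup.closure {a | ∃ y : E, X.proj y = a ∧ Inner X M χ y}

/-- `A_B`, the stabiliser of the block `B` of `χ` in `A`. -/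
def AB (M : Ideal (integralClosure ℤ ℂ)) (χ : G → ℂ) : Subgroup A where
  carrier := {a | ∃ e : E, X.proj e = a ∧ Induces M (funMap (X.act e) χ) χ}
  mul_mem' := by
    rintro _ _ ⟨e, rfl, he⟩ ⟨f, rfl, hf⟩
    refine ⟨e * f, map_mul _ _ _, fun g => ?_⟩
    obtain ⟨a, ha, ha'⟩ := he g
    obtain ⟨b, hb, hb'⟩ := hf ((X.act e)⁻¹ g)
    refine ⟨b + a, M.add_mem hb ha, ?_⟩
    rw [omega_funMap] at ha' hb'
    rw [omega_funMap]
    have h : (X.act (e * f))⁻¹ g = (X.act f)⁻¹ ((X.act e)⁻¹ g) := by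
      rw [map_mul, mul_inv_rev]
      rfl
    rw [h]
    push_cast
    linear_combination ha' + hb'
  one_mem' := ⟨1, map_one _, fun g => ⟨0, M.zero_mem, by rw [omega_funMap]; simp⟩⟩
  inv_mem' := by
    rintro _ ⟨e, rfl, he⟩
    refine ⟨e⁻¹, map_inv _ _, fun g => ?_⟩
    obtain ⟨a, ha, ha'⟩ := he ((X.act e) g)
    refine ⟨-a, M.neg_mem ha, ?_⟩
    rw [omega_funMap] at ha'
    rw [omega_funMap]
    have h : (X.act e⁻¹)⁻¹ g = (X.act e) g := by rw [map_inv, inv_inv]
    have h' : (X.act e)⁻¹ ((X.act e) g) = g := MulAut.inv_apply_self _ _ _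
    rw [h'] at ha'
    rw [h]
    push_cast
    linear_combination -ha'

end

section

variable {A : Type} [Group A]

/-- For `K` normal in `L`: the group `L / K` has a normal `p`-subgroup `W / K` with cyclic quotient. -/
def PCyc (p : ℕ) (K L : Subgroup A) : Prop :=
  ∃ W : Subgroup A, K ≤ W ∧ W ≤ L ∧ (∀ v ∈ L, ∀ w ∈ W, v * w * v⁻¹ ∈ W) ∧
    (∀ w ∈ W, ∃ k : ℕ, w ^ p ^ k ∈ K) ∧ ∃ s ∈ L, ∀ v ∈ L, ∃ i : ℤ, s ^ i * v ∈ W

end

/-- The group `U` has a normal `p`-subgroup with abelian quotient of order prime to `p` generated by two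
elements, and the Sylow `r`-subgroups of `U` are cyclic for all primes `r ≠ p` which divide `n`. -/
def TwoT (p n : ℕ) (U : Type) [Group U] : Prop :=
  (∃ P : Subgroup U, IsPGroup p P ∧ TwoQ p P) ∧
    ∀ r : ℕ, r.Prime → r ≠ p → r ∣ n → ∀ R : Sylow r U, IsCyclic R

/-- For `K` normal in `L`: every subgroup `V` of `L` which contains `K` is a product `U K` with a subgroup
`U` of type `TwoT`. -/
def SupT {A : Type} [Group A] (p n : ℕ) (K L : Subgroup A) : Prop :=
  ∀ V : Subgroup A, K ≤ V → V ≤ L → ∃ U : Subgroup A, U ⊔ K = V ∧ TwoT p n U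

end Pool.Agent.BQ
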