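import Mathlib
import Pool.Agent.helper35.BQ.Defs

/-!
# Project bq (MP_baa4d7_al): Dade's invariant conjecture and the groups `E[B]`

Theorem. (1) `k_C(B, d, U) = 0` unless `A[B] ≤ U ≤ A_B`. (2) The ordinary conjecture for a class `𝒳` implies Q1 for
`E` in `𝒳`, `E / G` arbitrary, if every subgroup `V`, `A[B] ≤ V ≤ A_B`, is `U A[B]` with `U` of type `TwoT`; in
particular if `A_B / A[B]` has a normal `p`-subgroup with cyclic quotient. (3) Principal block, all `E`: if
`Aut(S)` has a normal `p`-subgroup with cyclic quotient, `S` a Sylow `p`-subgroup of `G`.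

A module XX proves `theorem XX (hYY : YY_stmt) ... : XX_stmt` in `Pool/Agent/<seat>/BQ/XX.lean`:

  import Pool.Agent.helper35.BQ.Spec
  set_option autoImplicit false
  open Pool.Agent.helper58.DC Pool.Agent.DI Pool.Agent.DR Pool.Agent.NQ
  namespace Pool.Agent.BQ

Auxiliary lemmas get the prefix `XX_`. All statements of the following files are proved and may be taken as
hypotheses (`(hC4 : C4_stmt)`): `helper58/DC/Spec1` (IF, IM, OM, IRT, TI, SN, RE, ST, FN), `helper81/DI/SpecA..SpecD`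
(A2, A13, B0 .. B16, C1 .. C16, D13), `helper35/DR/Spec*`, `helper64/NQ/Spec`.
-/

set_option autoImplicit false

namespace Pool.Agent.BQ

open Pool.Agent.helper58.DC Pool.Agent.DI Pool.Agent.DR Pool.Agent.NQ

/-! ### powers of class sums -/

/-- **CMP** (short; C1, C3). Central characters which agree on a normal subgroup. Proof: copy the proof of the third
item of `C3_stmt` (`Pool/Agent/<seat>/DI/C3.lean`): `cc φ z = ∑ z(g_K) omega φ g_K` over representatives of the
classes of `Γ`; `z` vanishes on the classes outside `G'`, the `z(g_K)` are algebraic integers. -/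
def CMP_stmt : Prop :=
  ∀ (Γ : Type) [Group Γ] [Finite Γ] (p : ℕ) [Fact p.Prime] (M : Ideal (integralClosure ℤ ℂ)), M.IsMaximal →
    (p : integralClosure ℤ ℂ) ∈ M → ∀ G' : Subgroup Γ, G'.Normal → ∀ φ φ' : Γ → ℂ,
    (∀ g ∈ G', Mcong M (omega φ g) (omega φ' g)) → ∀ z : Γ → ℂ, IsZO z → (∀ x, x ∉ G' → z x = 0) →
      Mcong M (cc φ z) (cc φ' z)

/-- **PWR** (short-medium; C1, C3, C4, CMP). If two irreducible characters of `Γ` have congruent central characters on the
normal subgroup `G'`, `Γ / G'` abelian, and `omega φ y` is not in `M`, then `omega φ' y` is not in `M`. Proof: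
let `z` be the class sum of `y` (C3, second item), `omega φ y = cc φ z`. Define `z₀ = ` indicator of `1`,
`z_(m+1) = cv z z_m`. By C4: `IsZO z_m`, `cc φ z_m = (cc φ z) ^ m` (`cc φ z₀ = 1`, `φ 1 ≠ 0` by B1). `z x ≠ 0` only
for `x ∈ y G'` (as `Γ / G'` is abelian), so `z_m x ≠ 0` only for `x ∈ y ^ m G'` (induction, `cv`). Take `m` the
order of `y`: `z_m` vanishes outside `G'`. By CMP `(omega φ' y) ^ m ≡ (omega φ y) ^ m` modulo `M`; powers of an
algebraic integer not in `M` are not in `M` (C1; integrality: C3, last item, with `L = ⊤`, TI). -/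
def PWR_stmt : Prop :=
  ∀ (Γ : Type) [Group Γ] [Finite Γ] (p : ℕ) [Fact p.Prime] (M : Ideal (integralClosure ℤ ℂ)), M.IsMaximal →
    (p : integralClosure ℤ ℂ) ∈ M → ∀ G' : Subgroup Γ, G'.Normal → (∀ x y : Γ, x * y * x⁻¹ * y⁻¹ ∈ G') →
    ∀ φ ∈ Irr Γ, ∀ φ' ∈ Irr Γ, (∀ g ∈ G', Mcong M (omega φ g) (omega φ' g)) → ∀ y : Γ,
      ¬ Mcong M (omega φ y) 0 → ¬ Mcong M (omega φ' y) 0

/-! ### Clifford theory -/

/-- **VAN** (medium; B0 .. B12). A character `φ` of `N` over `ψ`, `N / (N ⊓ G')` cyclic, vanishes outside the stabiliser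
`T = stF N ψ`. Proof (for the group `H = N` and `K = (N ⊓ G')` as in the proof of B9; or directly): take `Λ`, `l` from
B5 for the cyclic quotient `H / K`. By B8 with `φ = φ'` the number of the `a ∈ Λ` with `l a · φ = φ` times `|K|` is
`∑_{x ∈ K} φ x * φ x⁻¹`, which is `|K|` times the number `t = |H| / |T|` of the conjugates of `ψ` (`OverP`,
orthogonality B2). So `Λ₀ = {a | l a · φ = φ}` is a subgroup of order `t` of `Λ`. The annihilator of `T` in
`Λ` is a subgroup of order `t` as well (B5 for `T` and `H`, or duality), and it is equal to `Λ₀` because `Λ` is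
cyclic (isomorphic to the dual of the cyclic group `H / K`): `T = {x | l a x = 1 for all a ∈ Λ₀}`. If `x ∉ T` there is
`a ∈ Λ₀` with `l a x ≠ 1`, and `φ x = l a x * φ x` gives `φ x = 0`. ALTERNATIVE (probably shorter): let `x ∈ N`, `x ∉ T`
and let `V` be the module of `φ`; the isotypic components `V_ψ'` for `K`, `ψ'` the conjugates of `ψ`, are permuted
by `x` without fixed point (the stabiliser of every conjugate is `T`, as `T ≥ K` is normal in `N`), so the trace of `x`
is `0`; in terms of functions: `e_ψ' = (ψ' 1 / |K|) ∑_{k ∈ K} ψ'(k⁻¹) k`, `φ(u) = ∑_ψ' φ(u e_ψ')` for `u` in the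
group algebra, and `φ(x e_ψ') = φ(e_{xψ'} x e_ψ') = φ(x e_ψ' e_{xψ'}) = 0`. ANOTHER WAY: Mackey-free: `φ` agrees with the
function induced from an extension `θ` of `ψ` to `T` (B7, B9a) times a linear character (B9 (1)), and this function
vanishes outside the normal subgroup `T`. -/
def VAN_stmt : Prop :=
  ∀ (Γ : Type) [Group Γ] [Finite Γ] (G' N : Subgroup Γ), CycQ G' → ∀ φ ∈ IrrOn N, ∀ ψ ∈ IrrOn (N ⊓ G'),
    OverP (N ⊓ G') N φ ψ → ∀ x ∈ N, φ x ≠ 0 → x ∈ stF N ψ

/-- **OVB** (short; B0, B2, B9, B11, B13, C16, C1). An irreducible character `φ` of `E`, `A = E / G` cyclic, which lies over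
a character `χ'` of the block of `χ`: the central character of `φ` is on `G` the one of `χ`. Proof: `G' = inc.range`,
`CycQ G'` (B0). By B9 (first item) `φ` is `OverP G' ⊤` over some `ψ ∈ IrrOn G'`; as
`∑_g φ (inc g) χ'(g⁻¹) ≠ 0` and `φ` is on `G'` the sum of the conjugates of `ψ`, `ext0 inc χ'` (an element of
`IrrOn G'` by B13) is one of them (orthogonality, B2), so `OverP G' ⊤ φ (ext0 inc χ')` (the set of the conjugates is
the same). By B11 `omega φ g = omega (ext0 inc χ') g` for `g ∈ G'`, and C16. -/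
def OVB_stmt : Prop :=
  ∀ (G E A : Type) [Group G] [Group E] [Group A] [Finite G] [Finite E] (X : Extension G E A) (p : ℕ)
    [Fact p.Prime] (M : Ideal (integralClosure ℤ ℂ)), M.IsMaximal → (p : integralClosure ℤ ℂ) ∈ M →
    IsCyclic A → ∀ φ ∈ Irr E, ∀ χ' ∈ Irr G, ∀ χ ∈ Irr G, Induces M χ' χ →
    ∑ᶠ g : G, φ (X.inc g) * χ' g⁻¹ ≠ 0 → ∀ g ∈ X.inc.range,
      Mcong M (omega φ g) (omega (ext0 X.inc χ) g)

/-! ### the key lemma -/

/-- **KEC** (medium; the main row; from PWR, VAN, OVB and A13, B0, B2, B10, B11, B13, B14, C3, C7, C8, C16, C1). The key lemma if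
`A` is generated by the image of `y`. Proof. Let `C` be a radical chain of `G` with largest term `P` (A13), `Q = P.map inc`,
`D = cmap inc C`, `L = nrm D ≤ E`, `G' = inc.range`. Then `L ⊓ G' = (nrm C).map inc` (B14), `Q ≤ L ≤ nz Q` and
`cz Q ≤ L` (an element of `cz Q` centralises every term of `D`, they are `≤ Q`). `ext0 inc ψ ∈ IrrOn (L ⊓ G')` (B13); by
B10 (2) (the right side `|stF L _|` is positive) there is `ψ₁ ∈ IrrOn L` with `OverP (L ⊓ G') L ψ₁ (ext0 inc ψ)`. By C7
`IsMult M ψ₁`, by C8 there is `φ₁ ∈ Irr E` with `Induces M ψ₁ φ₁`. For `g ∈ G'`: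
`omega φ₁ g ≡ omega ψ₁ g = omega (ext0 inc ψ) g ≡ omega (ext0 inc χ) g` (B11, C16), and the last number is
`≡ omega φ g` (OVB). By PWR (`A` abelian) `omega φ₁ y ∉ M`, so `omega ψ₁ y ∉ M` and `ψ₁ x ≠ 0` for some conjugate `x` of
`y`; `x ∈ L` (`ψ₁` vanishes outside `L`) and `X.proj x = X.proj y` (`A` abelian). By VAN `x ∈ stF L (ext0 inc ψ)`, so
`funMap (X.act x) ψ = ψ` (B13, last item, and injectivity of `ext0 inc`) and `chainMap (X.act x) C = C` (B14, last
item; `X.act_spec`). -/
def KEC_stmt : Prop :=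
  ∀ (G E A : Type) [Group G] [Group E] [Group A] [Finite G] [Finite E] (X : Extension G E A) (p : ℕ)
    [Fact p.Prime] (M : Ideal (integralClosure ℤ ℂ)), M.IsMaximal → (p : integralClosure ℤ ℂ) ∈ M →
    ∀ y : E, (∀ a : A, a ∈ Subgroup.zpowers (X.proj y)) → ∀ χ ∈ Irr G, ∀ φ ∈ Irr E,
    (∃ χ' ∈ Irr G, Induces M χ' χ ∧ ∑ᶠ g : G, φ (X.inc g) * χ' g⁻¹ ≠ 0) → ¬ Mcong M (omega φ y) 0 →
    ∀ C : Finset (Subgroup G), IsRadical p C → ∀ ψ ∈ IrrOn (nrm C), Induces M ψ χ →
      ∃ x ∈ X.stab C ψ, X.proj x = X.proj y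

/-- **KEY** (short; from KEC). Apply KEC to `resE X (Subgroup.zpowers (X.proj y))` and the element `⟨y, _⟩`
(`GY X y` is by definition its group, `incY X y` its inclusion); `(resE X U).act = X.act ∘ subtype`, so an element `x` of
`(resE X U).stab C ψ` gives `x.1 ∈ X.stab C ψ` with `X.proj x.1 = X.proj y`. Hence the generators of `AI` are in the
subgroup `(X.stab C ψ).map X.proj`. -/
def KEY_stmt : Prop :=
  ∀ (G E A : Type) [Group G] [Group E] [Group A] [Finite G] [Finite E] (X : Extension G E A) (p : ℕ)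
    [Fact p.Prime] (M : Ideal (integralClosure ℤ ℂ)), M.IsMaximal → (p : integralClosure ℤ ℂ) ∈ M →
    ∀ χ ∈ Irr G, ∀ C : Finset (Subgroup G), IsRadical p C → ∀ ψ ∈ IrrOn (nrm C), Induces M ψ χ →
      AI X M χ ≤ (X.stab C ψ).map X.proj

/-- **ZRO** (short; from KEY; IM). The numbers `kC` vanish unless `A[B] ≤ U ≤ A_B`. (If `ψ` is counted, `U` is the image of
`X.stab C ψ`, so `AI ≤ U` by KEY; for `e` in the stabiliser `funMap (X.act e) ψ = ψ`, so `Induces M ψ χ` gives
`Induces M ψ (funMap (X.act e) χ)` and `Induces M (funMap (X.act e) χ) χ` (IM): `X.proj e ∈ AB`. The set is empty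
otherwise. `altSum`: every representative `c.out.1` is radical.) -/
def ZRO_stmt : Prop :=
  ∀ (G E A : Type) [Group G] [Group E] [Group A] [Finite G] [Finite E] (X : Extension G E A) (p : ℕ)
    [Fact p.Prime] (M : Ideal (integralClosure ℤ ℂ)), M.IsMaximal → (p : integralClosure ℤ ℂ) ∈ M →
    ∀ χ ∈ Irr G, ∀ (d : ℤ) (U : Subgroup A), ¬ (AI X M χ ≤ U ∧ U ≤ AB X M χ) →
      (∀ C : Finset (Subgroup G), IsRadical p C → kC X p M χ d U C = 0) ∧ altSum X p M χ d U = 0

/-- **NRM** (short-medium; IRT, IM, OM). `A[B]` is normal in `A_B`. Proof: let `e : E` with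
`Induces M (funMap (X.act e) χ) χ`. It is enough to treat the generators of `AI` (the conjugate of a closure is the
closure of the conjugates; `MulAut.conj`). Let `Inner X M χ y` with `φ`, `χ'`, and `y' = e * y * e⁻¹`. The
isomorphism `c : GY X y' ≃* GY X y`, `x ↦ e⁻¹ * x * e`, gives `φ' = φ ∘ c ∈ Irr (GY X y')` (IRT) with
`omega φ' ⟨y', _⟩ = omega φ ⟨y, _⟩` (bijection of the conjugacy classes), and `χ'' = funMap (X.act e) χ' ∈ Irr G` (IRT)
satisfies `Induces M χ'' χ` (IM) and `∑_g φ' (incY g) * χ'' g⁻¹ = ∑_g φ (incY (X.act e⁻¹ g)) * χ' (X.act e⁻¹ g)⁻¹ ≠ 0`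
(`X.act_spec`). So `Inner X M χ y'`. -/
def NRM_stmt : Prop :=
  ∀ (G E A : Type) [Group G] [Group E] [Group A] [Finite G] [Finite E] (X : Extension G E A)
    (M : Ideal (integralClosure ℤ ℂ)), ∀ χ ∈ Irr G,
    ∀ v ∈ AB X M χ, ∀ w ∈ AI X M χ, v * w * v⁻¹ ∈ AI X M χ

/-! ### combinatorics and group theory -/

/-- **DWN** (short). Let `a` be a function on the subgroups of `A` which vanishes outside the interval `[K, L]`, and let every `V` in
the interval be `U ⊔ K` for some `U` such that the sum of `a` over the subgroups containing `U` is zero. Then `a = 0`.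
Proof: if `a W ≠ 0` then `K ≤ W`, so `U ≤ W ↔ V ≤ W`; hence `∑_{W ≥ V} a W = 0` for all `V` in the interval.
Take `V` maximal with `a V ≠ 0`: the sum is `a V`. (Compare D13 of DI, `Pool/Agent/<seat>/DI/D13.lean`.) -/
def DWN_stmt : Prop :=
  ∀ (A : Type) [Group A] [Finite A] (a : Subgroup A → ℤ) (K L : Subgroup A),
    (∀ V, ¬ (K ≤ V ∧ V ≤ L) → a V = 0) →
    (∀ V, K ≤ V → V ≤ L → ∃ U : Subgroup A, U ⊔ K = V ∧ ∑ᶠ W : {W : Subgroup A // U ≤ W}, a W.1 = 0) →
    ∀ V, a V = 0

/-- **CYT** (short-medium). A group with a normal `p`-subgroup `Q` and cyclic quotient is of type `TwoT`. Proof: let `P` be a Sylow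
`p`-subgroup. `Q ≤ P` (a normal `p`-subgroup is contained in every Sylow `p`-subgroup) and `P` is normal, as every
subgroup containing `Q` is normal (`U / Q` abelian). `U / P` is abelian (commutators are in `Q`), of order prime to `p`
(index of a Sylow subgroup), generated by the class of `s` (`TwoQ` with `t = 1`). For `r ≠ p` a Sylow `r`-subgroup `R`
meets `Q` trivially, so it embeds in the cyclic group `U / Q`. -/
def CYT_stmt : Prop :=
  ∀ (p n : ℕ) [Fact p.Prime] (U : Type) [Group U] [Finite U],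
    (∃ Q : Subgroup U, IsPGroup p Q ∧ CycQ Q) → TwoT p n U

/-- **LFT** (medium; pure group theory; CYT). Lifting. Let `K` be normal in `L`, `W` as in `PCyc`, `K ≤ V ≤ L`. Let
`W' = W ⊓ V` (normal in `V`), `V / W'` is cyclic: generated by the class of some `s ∈ V` (a subgroup of the cyclic
group `L / W`; take `s ∈ V` such that the least positive `i` with `s₀ ^ i ∈ s W` is smallest, or use
`Subgroup.isCyclic` for the quotient). Let `Q` be a Sylow `p`-subgroup of `W'`. `W' = K Q`: the quotient `W' / K` is a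
`p`-group by the fourth condition of `PCyc` (`K` normal), so the index of `K ⊔ Q` in `W'` is both a power of `p` and
prime to `p`. Frattini (`Sylow.normalizer_sup_eq_top'` and relatives, in the group `V`): `V = W' N_V(Q)`, so
`s = w n` with `w ∈ W'`, `n` normalising `Q`, `n ∈ V`. Let `U = Q ⊔ ⟨n⟩`. Then `U ⊔ K` contains `K Q = W'` and `n`, so it is
`V`; `Q` is a normal `p`-subgroup of `U` with cyclic quotient: CYT. -/
def LFT_stmt : Prop :=
  ∀ (p n : ℕ) [Fact p.Prime] (A : Type) [Group A] [Finite A] (K L : Subgroup A),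
    (∀ v ∈ L, ∀ w ∈ K, v * w * v⁻¹ ∈ K) → PCyc p K L → SupT p n K L

/-- **SPQ** (short; from ZRO, DWN; RE of helper58, FTW of NQ). Q1 for blocks with `SupT`. Proof: apply DWN to `a = altSum X p M χ d`,
`K = AI`, `L = AB` (ZRO). For `V = U ⊔ AI` with `TwoT p |G| U`: by RE the sum over the `W ≥ U` is
`altSum (resE X U) p M χ d ⊤`, which is `0` by FTW, applied to `resE X U : Extension G (U.comap X.proj) U`
(`ClX.sub`; if `p ∤ |A|` then `p ∤ |U|`). -/
def SPQ_stmt : Prop :=
  ∀ (p : ℕ) [Fact p.Prime] (M : Ideal (integralClosure ℤ ℂ)), M.IsMaximal → (p : integralClosure ℤ ℂ) ∈ M →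
    ∀ 𝒳 : (E : Type) → [Group E] → Prop, ClX 𝒳 → OrdX p M 𝒳 →
    ∀ (G E A : Type) [Group G] [Group E] [Group A] [Finite G] [Finite E] (X : Extension G E A), 𝒳 E →
    (PrX 𝒳 ∨ ¬ p ∣ Nat.card A) → IsOp p (⊤ : Subgroup G) ⊥ → ∀ χ ∈ Irr G, PosDefect p M χ →
    SupT p (Nat.card G) (AI X M χ) (AB X M χ) → ∀ (d : ℤ) (U : Subgroup A), altSum X p M χ d U = 0

/-! ### the principal block -/

/-- **PRI** (short-medium; C1). Elements of `E` which centralise a Sylow `p`-subgroup `S` of `G` are inner for the principal block.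
Proof: `φ = 1` (the trivial character of `GY X y`; `1 ∈ Irr`: `Pool/Agent` has this, grep for `Irr` and
`Representation.trivial`), `χ' = 1`, `∑_g 1 = |G| ≠ 0`. `omega 1 ⟨y, _⟩ = |K|`, `K` the conjugacy class of `y` in
`H = GY X y`, `|K| = |H : C_H(y)|`. Every element of `H` is `inc g * y ^ i`, so `K` is the orbit of `y` under
conjugation by `G`, and `|K| = |G : C_G(y)|` divides `|G : S|`, which is prime to `p` (`Sylow.card_coprime_index` or
`Sylow.not_dvd_index`). So `|K|` is not in `M` (C1). -/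
def PRI_stmt : Prop :=
  ∀ (G E A : Type) [Group G] [Group E] [Group A] [Finite G] [Finite E] (X : Extension G E A) (p : ℕ)
    [Fact p.Prime] (M : Ideal (integralClosure ℤ ℂ)), M.IsMaximal → (p : integralClosure ℤ ℂ) ∈ M →
    ∀ (S : Sylow p G) (y : E), (∀ s ∈ S, X.act y s = s) → Inner X M (fun _ : G => (1 : ℂ)) y

/-- **AUT** (medium; from PRI, NRM; group theory). If `Aut(S)` has a normal `p`-subgroup `P₀` with cyclic quotient, then so has
`A_B / A[B]` for the principal block. Proof: `AB = ⊤` (`funMap α 1 = 1`). Let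
`T = {e : E | (S : Subgroup G).map (X.act e) = S}` (a subgroup of `E`), `α : T →* MulAut S` the action. Frattini:
`X.proj` maps `T` onto `A` (`(S : Subgroup G).map (X.act e)` is a Sylow subgroup of `G`, conjugate to `S`, and
`X.act (X.inc g) = MulAut.conj g`). Let `W = AI ⊔ (image in A of α⁻¹(P₀))`. `AI` is normal in `A` (NRM), the image of
`α⁻¹(P₀)` is normal in `A` (image of `T`; `P₀` is normal), so `W` is normal. If `w ∈ W`, `w = a t` with `a ∈ AI`,
`t = X.proj e`, `α e ∈ P₀`; for `p ^ k` with `(α e) ^ p ^ k = 1` the element `e ^ p ^ k` centralises `S`, so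
`t ^ p ^ k ∈ AI` (PRI) and `w ^ p ^ k ∈ AI`. Cyclic: the range `R` of `α` has the normal subgroup `R ⊓ P₀` with cyclic
quotient (B0): there is `e₀ ∈ T` such that for every `e ∈ T` there is `i` with `α (e₀ ^ i * e) ∈ P₀`; take
`s = X.proj e₀`. -/
def AUT_stmt : Prop :=
  ∀ (G E A : Type) [Group G] [Group E] [Group A] [Finite G] [Finite E] (X : Extension G E A) (p : ℕ)
    [Fact p.Prime] (M : Ideal (integralClosure ℤ ℂ)), M.IsMaximal → (p : integralClosure ℤ ℂ) ∈ M →
    ∀ S : Sylow p G, (∃ P₀ : Subgroup (MulAut S), IsPGroup p P₀ ∧ CycQ P₀) →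
      PCyc p (AI X M (fun _ : G => (1 : ℂ))) (AB X M (fun _ : G => (1 : ℂ)))

/-! ### final statements -/

/-- **RIV** (short). `RedX` is invariant under isomorphisms. (Transport `N` by `Subgroup.comap e` / `Subgroup.map e`:
`MinAb`, `Nat.card`, `ncpl`, `CrP` of `helper35/DR`.) -/
def RIV_stmt : Prop :=
  ∀ (p : ℕ) (A A' : Type) [Group A] [Group A'] [Finite A] [Finite A'], Nonempty (A ≃* A') → RedX p A → RedX p A'

/-- **FRS** (short-medium; pure group theory). In a reduced group every nontrivial subgroup `K` which is normal has a proper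
supplement. Proof: otherwise every proper subgroup `U` satisfies `U ⊔ K ≠ ⊤`, so `K` is contained in every maximal
subgroup and `K ≤ frattini A` (`Mathlib.GroupTheory.Frattini`), which is nilpotent (`frattini_nilpotent`) and not trivial.
Let `Z` be its centre mapped to `A`: normal in `A`, abelian, nontrivial; it contains a minimal normal subgroup `N` of
`A`, `MinAb N`. By `RedX` `ncpl N = Nat.card N > 0`, so `N` has a complement `R ≠ ⊤`; `R` is contained in a maximal
subgroup `H` (`A` finite), and `N ≤ frattini A ≤ H`, so `⊤ = N ⊔ R ≤ H`, a contradiction. -/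
def FRS_stmt : Prop :=
  ∀ (p : ℕ) (A : Type) [Group A] [Finite A], RedX p A → ∀ K : Subgroup A, K.Normal → K ≠ ⊥ →
    ∃ U : Subgroup A, U ≠ ⊤ ∧ U ⊔ K = ⊤

/-- **RDB** (short-medium; from ZRO, NRM, RIV, FRS; D13, RE, ST; FINX of DR). The reduction to `A` reduced, a stable block with
`E[B] = G`, and `U = A`. Proof: strong induction on `|A|`: `InvX p M 𝒳 A` for all `A ∈ 𝒞`. Let it hold for all
smaller groups in `𝒞`. Case 1, `¬ RedX p A`: apply the reduction theorem of DR (first part of `ReducedQuotients`,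
`(Pool.Agent.DR.All.main ..).2.2`, stated in `FINX_stmt`) to the class `𝒞'` of all groups isomorphic to a quotient of a
subgroup of `A` (`Sec _ A`; closed under subgroups and images; contained in `𝒞`): a reduced `A'` in `𝒞'` is not of
order `|A|` (it would be isomorphic to `A`, RIV), so `InvX p M 𝒳 A'` by induction.
Case 2, `RedX p A`: let `X : Extension G E A₀`, `A₀ ≃* A`; `RedX p A₀` by RIV, `𝒞 A₀`. By D13 and RE it is enough that
`altSum X p M χ d ⊤ = 0` (for proper `U` the sum over the `V ≥ U` is `altSum (resE X U) .. ⊤ = 0` by induction). By ST we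
may assume `Stable X M χ`. If `AI X M χ = ⊥` use the hypothesis. If `AI ≠ ⊥`: there is a proper subgroup `U` with
`U ⊔ AI = ⊤` (FRS; `AI` is normal by NRM, as `AB = ⊤`). By ZRO `altSum .. V = 0` unless `AI ≤ V`, so
`altSum .. ⊤ = ∑_{V ≥ U} altSum .. V = altSum (resE X U) .. ⊤ = 0`. -/
def RDB_stmt : Prop :=
  ∀ (p : ℕ) [Fact p.Prime] (M : Ideal (integralClosure ℤ ℂ)), M.IsMaximal → (p : integralClosure ℤ ℂ) ∈ M →
    ∀ 𝒳 : (E : Type) → [Group E] → Prop, ClX 𝒳 → PrX 𝒳 → CeX p 𝒳 →
    ∀ 𝒞 : (A : Type) → [Group A] → Prop, ClX 𝒞 →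
    (∀ (G E A : Type) [Group G] [Group E] [Group A] [Finite G] [Finite E] (X : Extension G E A), 𝒳 E →
      𝒞 A → RedX p A → IsOp p (⊤ : Subgroup G) ⊥ → ∀ χ ∈ Irr G, PosDefect p M χ → AB X M χ = ⊤ →
      AI X M χ = ⊥ → ∀ d : ℤ, altSum X p M χ d ⊤ = 0) →
    ∀ (A : Type) [Group A] [Finite A], 𝒞 A → InvX p M 𝒳 A

end Pool.Agent.BQ
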