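import Pool.Agent.helper35.BQ.Spec
set_option autoImplicit false
open Pool.Agent.helper58.DC Pool.Agent.DI Pool.Agent.DR Pool.Agent.NQ
namespace Pool.Agent.BQ

theorem KEY (hKEC : KEC_stmt) : KEY_stmt := by
  intro G E A _ _ _ _ _ X p _ M hM hp χ hχ C hC ψ hψ hI
  unfold AI
  rw [Subgroup.closure_le]
  rintro _ ⟨y, rfl, φ, hφ, hχ', hy⟩
  have hy' : ¬ Mcong M (omega φ ⟨y, self_mem X y⟩) 0 := by
    rintro ⟨a, ha, ha'⟩
    refine hy ⟨a, ha, ?_⟩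
    rw [sub_zero] at ha'
    exact ha'
  have hgen : ∀ a : (Subgroup.zpowers (X.proj y)),
      a ∈ Subgroup.zpowers ((resE X (Subgroup.zpowers (X.proj y))).proj ⟨y, self_mem X y⟩) := by
    rintro ⟨a, ha⟩
    obtain ⟨i, rfl⟩ := Subgroup.mem_zpowers_iff.1 ha
    refine Subgroup.mem_zpowers_iff.2 ⟨i, ?_⟩
    apply Subtype.ext
    rw [Subgroup.coe_zpow]
    rfl
  obtain ⟨x, hx, hxy⟩ := hKEC G (GY X y) (Subgroup.zpowers (X.proj y))
    (resE X (Subgroup.zpowers (X.proj y))) p M hM hp ⟨y, self_mem X y⟩ hgen χ hχ φ hφ hχ' hy'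
    C hC ψ hψ hI
  refine ⟨x.1, ?_, ?_⟩
  · exact hx
  · exact congrArg Subtype.val hxy

end Pool.Agent.BQ
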