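import Mathlib
import Pool.Agent.helper35.BQ.Spec

/-!
# Project bq (MP_baa4d7_al), part 2: outer automorphism groups

Rules as in `Spec.lean` (import `Pool.Agent.helper35.BQ.Spec2`). Theorem: the ordinary conjecture implies Q1 for all `E`,
`E / G` arbitrary, and all blocks of `G`, if `Out(G)` has a normal `p`-subgroup with cyclic quotient.
-/

set_option autoImplicit false

namespace Pool.Agent.BQ

open Pool.Agent.helper58.DC Pool.Agent.DI Pool.Agent.DR Pool.Agent.NQ

/-- **CEG** (short-medium; B0, B2, B4, B9, B13, C1, C3, TI). Elements of `E` which centralise `G` are inner for every block. Proof: let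
`H = GY X y`, `K = (incY X y).range`; `CycQ K` (every element of `H` is `inc g * y ^ i`). By B13 `ext0 (incY X y) χ ∈ IrrOn K`;
by B9 (second item; the right side is positive) there is `φ ∈ Irr H` with `OverP K ⊤ φ (ext0 (incY X y) χ)`. `χ' = χ`
(IM): the restriction of `φ` to `K` is the sum of the distinct conjugates of `ext0 _ χ`, so `∑_g φ (incY X y g) * χ g⁻¹`
is `|G| ≠ 0` (orthogonality, B2). `y` is central in `H` (it commutes with `inc g` by `X.act_spec`, and with `y`), so its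
conjugacy class is `{y}` and `omega φ y = φ y / φ 1`, `omega φ y⁻¹ = φ y⁻¹ / φ 1`; by B4 (with `x = y⁻¹`)
`φ 1 * φ 1 = φ y⁻¹ * φ y`. So `omega φ y * omega φ y⁻¹ = 1`, both factors are algebraic integers (C3, last item), and
`omega φ y ∈ M` would give `1 ∈ M` (C1). -/
def CEG_stmt : Prop :=
  ∀ (G E A : Type) [Group G] [Group E] [Group A] [Finite G] [Finite E] (X : Extension G E A) (p : ℕ)
    [Fact p.Prime] (M : Ideal (integralClosure ℤ ℂ)), M.IsMaximal → (p : integralClosure ℤ ℂ) ∈ M →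
    ∀ χ ∈ Irr G, ∀ y : E, (∀ g, X.act y g = g) → Inner X M χ y

/-- **PCM** (short-medium; pure group theory). Let `π : T → A`, `α : T → Γ` be homomorphisms, `K ≤ L ≤ A`, `K` normalised by `L`,
`L` contained in the image of `π`, `K₀ ≤ W₀ ≤ Γ` as in `PCyc p K₀ ⊤`, and suppose that `π t ∈ K` if `π t ∈ L` and
`α t ∈ K₀`. Then `PCyc p K L`. Proof: let `N` be the image under `π` of `{t | α t ∈ W₀, π t ∈ L}`: a subgroup of `L`,
normalised by `L` (for `v ∈ L`, `v = π t'`, conjugate by `t'`). `W = K ⊔ N`, every element is `a * b` with `a ∈ K`, `b ∈ N`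
(`N` normalises `K`). For `w = a * π t` choose `k` with `(α t) ^ p ^ k ∈ K₀`: then `π (t ^ p ^ k) ∈ K`, and
`w ^ n ∈ K * (π t) ^ n` for all `n` as `π t` normalises `K`. Cyclic: let `s₀` generate `Γ` modulo `W₀`. The
set of the `i : ℤ` with `α t ∈ s₀ ^ i W₀` for some `t` with `π t ∈ L` is a subgroup of `ℤ`, hence generated by one `i₀`; take
`t₀` for `i₀` and `s = π t₀` (or: the subgroup `{t | π t ∈ L}` has cyclic image in `Γ / W₀`; `B0_stmt`, `CycQ`). -/
def PCM_stmt : Prop :=
  ∀ (p : ℕ) [Fact p.Prime] (T A Γ : Type) [Group T] [Group A] [Group Γ] [Finite T] [Finite A] [Finite Γ]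
    (π : T →* A) (α : T →* Γ) (K L : Subgroup A) (K₀ : Subgroup Γ), K ≤ L →
    (∀ v ∈ L, ∀ w ∈ K, v * w * v⁻¹ ∈ K) → L ≤ π.range → PCyc p K₀ (⊤ : Subgroup Γ) →
    (∀ t : T, π t ∈ L → α t ∈ K₀ → π t ∈ K) → PCyc p K L

/-- **OUT** (short; from CEG, NRM, KEY, PCM; RB of helper58). If `Out(G)` has a normal `p`-subgroup with cyclic quotient, so has
`A_B / A[B]` for every block. Proof: PCM with `T = E`, `π = X.proj`, `Γ = MulAut G`, `α = X.act`, `K₀ = Inn(G)`, `K = AI`,
`L = AB`. `AI ≤ AB`: `C = {⊥}` is a radical chain (RB; `nrm {⊥} = ⊤`), `χ ∈ IrrOn ⊤` (TI), so `AI ≤ (X.stab C χ).map X.proj`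
by KEY, and this is contained in `AB` (`funMap (X.act e) χ = χ`, `Induces M χ χ`). Last condition: if
`X.act t = MulAut.conj g`, the element `y = t * (X.inc g)⁻¹` satisfies `X.act y = 1` (`X.act (X.inc g) = MulAut.conj g` by
`act_spec` and injectivity of `inc`) and `X.proj y = X.proj t`, so `X.proj t ∈ AI` by CEG. -/
def OUT_stmt : Prop :=
  ∀ (G E A : Type) [Group G] [Group E] [Group A] [Finite G] [Finite E] (X : Extension G E A) (p : ℕ)
    [Fact p.Prime] (M : Ideal (integralClosure ℤ ℂ)), M.IsMaximal → (p : integralClosure ℤ ℂ) ∈ M →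
    IsOp p (⊤ : Subgroup G) ⊥ → PCyc p (MulAut.conj : G →* MulAut G).range ⊤ →
    ∀ χ ∈ Irr G, PCyc p (AI X M χ) (AB X M χ)

end Pool.Agent.BQ
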