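import Pool.Agent.helper64.NQ.All
import Pool.Agent.helper35.BQ.Spec2
import Pool.Agent.helper14.BQ.CMP
import Pool.Agent.helper45.BQ.PWR
import Pool.Agent.helper28.BQ.VAN
import Pool.Agent.helper32.BQ.OVB
import Pool.Agent.helper29.BQ.KEC
import Pool.Agent.helper35.BQ.KEY
import Pool.Agent.helper8.BQ.ZRO
import Pool.Agent.helper92.BQ.NRM
import Pool.Agent.helper25.BQ.DWN
import Pool.Agent.helper30.BQ.CYT
import Pool.Agent.helper40.BQ.LFT
import Pool.Agent.helper55.BQ.SPQ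
import Pool.Agent.helper99.BQ.PRI
import Pool.Agent.helper75.BQ.AUT
import Pool.Agent.helper99.BQ.RIV
import Pool.Agent.helper78.BQ.FRS
import Pool.Agent.helper2.BQ.RDB
import Pool.Agent.helper68.BQ.CEG
import Pool.Agent.helper32.BQ.PCM
import Pool.Agent.helper11.BQ.OUT

/-!
# Project bq (MP_baa4d7_al): assembly of all modules
-/

set_option autoImplicit false

namespace Pool.Agent.BQ.All

open Pool.Agent.helper58.DC Pool.Agent.DI Pool.Agent.DR Pool.Agent.NQ Pool.Agent.BQ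
open Pool.Agent.DR.AllDI

theorem qCMP : CMP_stmt := Pool.Agent.BQ.CMP iC1 iC3
theorem qPWR : PWR_stmt := Pool.Agent.BQ.PWR iC1 iC3 iC4 iB1 iTIx qCMP
theorem qVAN : VAN_stmt := Pool.Agent.BQ.VAN iIFx iIRTx iB0 iB2 iB5 iB8
theorem qOVB : OVB_stmt := Pool.Agent.BQ.OVB iB0 iB2 iB9 iB11 iB13 iC16 iC1
theorem qKEC : KEC_stmt := Pool.Agent.BQ.KEC qPWR qVAN qOVB iA13 iB0 iB2 iB10 iB11 iB13 iB14 iC1 iC3
  iC7 iC8 iC16
theorem qKEY : KEY_stmt := Pool.Agent.BQ.KEY qKEC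
theorem qZRO : ZRO_stmt := Pool.Agent.BQ.ZRO qKEY iIMx
theorem qNRM : NRM_stmt := Pool.Agent.BQ.NRM iIRTx iIMx iOMx
theorem qLFT : LFT_stmt := Pool.Agent.BQ.LFT Pool.Agent.BQ.CYT
theorem qSPQ : SPQ_stmt := Pool.Agent.BQ.SPQ qZRO Pool.Agent.BQ.DWN Pool.Agent.helper58.DC.All.dRE
  Pool.Agent.NQ.All.nFTW
theorem qPRI : PRI_stmt := Pool.Agent.BQ.PRI iC1
theorem qAUT : AUT_stmt := Pool.Agent.BQ.AUT qPRI qNRM iB0
theorem qCEG : CEG_stmt := Pool.Agent.BQ.CEG iB0 iB2 iB4 iB9 iB13 iC1 iC3 iTIx iIMx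
theorem qPCM : PCM_stmt := Pool.Agent.BQ.PCM iB0
theorem qOUT : OUT_stmt := Pool.Agent.BQ.OUT qCEG qNRM qKEY qPCM Pool.Agent.helper58.DC.All.dRB iTIx iIMx
theorem qRDB : RDB_stmt := Pool.Agent.BQ.RDB qZRO qNRM Pool.Agent.BQ.RIV Pool.Agent.BQ.FRS iD13
  Pool.Agent.helper58.DC.All.dRE Pool.Agent.helper58.DC.All.dST Pool.Agent.DR.All.main

/-- `A[B] ≤ A_B`. -/
theorem AI_le_AB (p : ℕ) [Fact p.Prime] (M : Ideal (integralClosure ℤ ℂ)) (hM : M.IsMaximal)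
    (hp : (p : integralClosure ℤ ℂ) ∈ M) (G E A : Type) [Group G] [Group E] [Group A] [Finite G]
    [Finite E] (X : Extension G E A) (hG : IsOp p (⊤ : Subgroup G) ⊥) (χ : G → ℂ) (hχ : χ ∈ Irr G) :
    AI X M χ ≤ AB X M χ := by
  classical
  have hrad : IsRadical p ({⊥} : Finset (Subgroup G)) := by
    rw [Pool.Agent.helper58.DC.All.dRB G p hG]
    refine ⟨?_, by simp, ?_⟩
    · rw [Finset.coe_singleton]
      exact Set.Subsingleton.isChain Set.subsingleton_singleton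
    · intro P hP
      rw [Finset.mem_singleton] at hP
      subst hP
      refine ⟨IsPGroup.of_bot, ?_⟩
      have h1 : nrm ((({⊥} : Finset (Subgroup G))).filter (· ≤ (⊥ : Subgroup G))) = ⊤ := by
        rw [Finset.filter_singleton, if_pos le_rfl]
        unfold nrm
        simp only [Finset.mem_singleton, iInf_iInf_eq_left]
        exact Subgroup.normalizer_eq_top_iff.2 inferInstance
      rw [h1]
      exact hG
  have hn : nrm ({⊥} : Finset (Subgroup G)) = ⊤ := by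
    unfold nrm
    simp only [Finset.mem_singleton, iInf_iInf_eq_left]
    exact Subgroup.normalizer_eq_top_iff.2 inferInstance
  have hψ : χ ∈ IrrOn (nrm ({⊥} : Finset (Subgroup G))) := by
    rw [hn, iTIx G χ]
    exact hχ
  have hI : Induces M χ χ := (iIMx G M χ χ χ).1
  intro a ha
  obtain ⟨e, he, rfl⟩ := qKEY G E A X p M hM hp χ hχ {⊥} hrad χ hψ hI ha
  refine ⟨e, rfl, ?_⟩
  rw [he.2]
  exact hI

theorem main (p : ℕ) [Fact p.Prime] (M : Ideal (integralClosure ℤ ℂ)) (hM : M.IsMaximal)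
    (hp : (p : integralClosure ℤ ℂ) ∈ M) (G E A : Type) [Group G] [Group E] [Group A] [Finite G]
    [Finite E] (X : Extension G E A) (hG : IsOp p (⊤ : Subgroup G) ⊥) (χ : G → ℂ) (hχ : χ ∈ Irr G) :
    (AI X M χ ≤ AB X M χ ∧ (∀ v ∈ AB X M χ, ∀ w ∈ AI X M χ, v * w * v⁻¹ ∈ AI X M χ) ∧
      ∀ C : Finset (Subgroup G), IsRadical p C → ∀ (d : ℤ) (U : Subgroup A),
        ¬ (AI X M χ ≤ U ∧ U ≤ AB X M χ) → kC X p M χ d U C = 0) ∧
    ∀ 𝒳 : (E : Type) → [Group E] → Prop, ClX 𝒳 → OrdX p M 𝒳 → 𝒳 E →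
      (PrX 𝒳 ∨ ¬ p ∣ Nat.card A) → PosDefect p M χ →
      (PCyc p (AI X M χ) (AB X M χ) ∨ PCyc p (MulAut.conj : G →* MulAut G).range ⊤ ∨
        (χ = (fun _ => 1) ∧ ∃ (S : Sylow p G) (P : Subgroup (MulAut S)), IsPGroup p P ∧ CycQ P) ∨
        TwoT p (Nat.card G) A ∨ SupT p (Nat.card G) (AI X M χ) (AB X M χ)) →
      ∀ (d : ℤ) (U : Subgroup A), altSum X p M χ d U = 0 := by
  refine ⟨⟨AI_le_AB p M hM hp G E A X hG χ hχ, fun v hv w hw => qNRM G E A X M χ hχ v hv w hw,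
    fun C hC d U hU => (qZRO G E A X p M hM hp χ hχ d U hU).1 C hC⟩, ?_⟩
  intro 𝒳 h𝒳 hO hE hPr hD hc d U
  haveI : Finite A := Finite.of_surjective X.proj X.proj_surjective
  have hn : ∀ v ∈ AB X M χ, ∀ w ∈ AI X M χ, v * w * v⁻¹ ∈ AI X M χ :=
    fun v hv w hw => qNRM G E A X M χ hχ v hv w hw
  have fin : SupT p (Nat.card G) (AI X M χ) (AB X M χ) → altSum X p M χ d U = 0 := fun key =>
    qSPQ p M hM hp 𝒳 h𝒳 hO G E A X hE hPr hG χ hχ hD key d U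
  rcases hc with h | h | ⟨rfl, S, hS⟩ | ⟨h1, h2⟩ | h
  · exact fin (qLFT p (Nat.card G) A (AI X M χ) (AB X M χ) hn h)
  · exact fin (qLFT p (Nat.card G) A (AI X M χ) (AB X M χ) hn (qOUT G E A X p M hM hp hG h χ hχ))
  · exact fin (qLFT p (Nat.card G) A _ _ hn (qAUT G E A X p M hM hp S hS))
  · exact Pool.Agent.NQ.All.nFTW p M hM hp 𝒳 h𝒳 hO G E A X hE h1 hPr h2 hG χ hχ hD d U
  · exact fin h

theorem red (p : ℕ) [Fact p.Prime] (M : Ideal (integralClosure ℤ ℂ)) (hM : M.IsMaximal)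
    (hp : (p : integralClosure ℤ ℂ) ∈ M) (𝒳 : (E : Type) → [Group E] → Prop) (h𝒳 : ClX 𝒳)
    (hPr : PrX 𝒳) (hCe : CeX p 𝒳) (𝒞 : (A : Type) → [Group A] → Prop) (h𝒞 : ClX 𝒞) :
    (∀ (G E A : Type) [Group G] [Group E] [Group A] [Finite G] [Finite E] (X : Extension G E A),
      𝒳 E → 𝒞 A → IsOp p (⊤ : Subgroup G) ⊥ → ∀ χ ∈ Irr G, PosDefect p M χ →
      ∀ (d : ℤ) (U : Subgroup A), altSum X p M χ d U = 0) ↔
    (∀ (G E A : Type) [Group G] [Group E] [Group A] [Finite G] [Finite E] (X : Extension G E A),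
      𝒳 E → 𝒞 A → IsOp p (⊤ : Subgroup G) ⊥ → ∀ χ ∈ Irr G, PosDefect p M χ →
      RedX p A → AB X M χ = ⊤ → AI X M χ = ⊥ → (∀ y : E, (∀ g, X.act y g = g) → y ∈ X.inc.range) →
      ∀ d : ℤ, altSum X p M χ d ⊤ = 0) := by
  constructor
  · intro h G E A _ _ _ _ _ X hE hA hG χ hχ hD _ _ _ _ d
    exact h G E A X hE hA hG χ hχ hD d ⊤
  · intro h G E A _ _ _ _ _ X hE hA hG χ hχ hD d U
    haveI : Finite A := Finite.of_surjective X.proj X.proj_surjective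
    refine qRDB p M hM hp 𝒳 h𝒳 hPr hCe 𝒞 h𝒞 ?_ A hA G E A X hE ⟨MulEquiv.refl A⟩ hG χ hχ hD d U
    intro G E A _ _ _ _ _ X hE hA hR hG χ hχ hD hAB hAI d
    refine h G E A X hE hA hG χ hχ hD hR hAB hAI ?_ d
    intro y hy
    have h1 : X.proj y ∈ AI X M χ :=
      Subgroup.subset_closure ⟨y, rfl, qCEG G E A X p M hM hp χ hχ y hy⟩
    rw [hAI, Subgroup.mem_bot, X.exact] at h1
    exact h1

end Pool.Agent.BQ.All
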